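import Mathlib
import Pool.Agent.H5.Amp

namespace Pool.Agent.Results.MP_84cbe7_co.Helix

open Finset Pool.Agent.H5.Amp SimpleGraph

def fw : List Sp :=
  [(⟨2, 0⟩, ⟨2, -1⟩), (⟨2, 2⟩, ⟨0, 1⟩), (⟨2, 2⟩, ⟨1, 0⟩),
   (⟨2, -1⟩, ⟨2, 0⟩), (⟨2, 2⟩, ⟨0, 1⟩), (⟨2, 1⟩, ⟨2, 0⟩),
   (⟨2, -1⟩, ⟨2, 0⟩), (⟨2, 2⟩, ⟨1, 0⟩), (⟨2, 1⟩, ⟨2, 0⟩),
   (⟨2, 2⟩, ⟨0, 1⟩), (⟨2, 2⟩, ⟨1, 0⟩), (⟨2, -1⟩, ⟨2, 0⟩),
   (⟨2, 2⟩, ⟨0, 1⟩), (⟨2, 1⟩, ⟨2, 0⟩)]

def xs : List (ℤ × ℤ × ℤ) :=
  [(0, 0, 0), (8, -4, -1), (12, 0, 6), (16, -4, 13), (24, 0, 14), (28, 4, 21),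
   (36, 0, 22), (44, 4, 23), (48, 0, 30), (56, -4, 31), (60, 0, 38), (64, -4, 45),
   (72, 0, 46), (76, 4, 53), (84, 0, 54)]

def X (i : Fin 15) : Fin 3 → ℤ := fun k =>
  if k = 0 then (xs.getD i (0, 0, 0)).1 else if k = 1 then (xs.getD i (0, 0, 0)).2.1
  else (xs.getD i (0, 0, 0)).2.2

def P (i j : Fin 15) : Sp :=
  if i.val + 1 = j.val then fw.getD i (0, 0)
  else (-star (fw.getD j (0, 0)).2, star (fw.getD j (0, 0)).1)

def oth (i j : Fin 15) : Fin 15 := if i = 0 ∨ i = 14 then j else i + i - j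

instance : DecidableRel (pathGraph 15).Adj := fun u v =>
  decidable_of_iff (u.val + 1 = v.val ∨ v.val + 1 = u.val) pathGraph_adj.symm

lemma tree : (pathGraph 15).IsTree := by
  rw [isTree_iff_connected_and_card]
  refine ⟨pathGraph_connected 14, ?_⟩
  rw [Nat.card_eq_fintype_card, ← edgeFinset_card, Nat.card_eq_fintype_card, Fintype.card_fin]
  have h := (pathGraph 15).sum_degrees_eq_twice_card_edges
  have h2 : ∑ v, (pathGraph 15).degree v = 28 := by decide +kernel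
  omega

def T (i : Fin 14) (p q : Bool) : GaussianInt :=
  om (P i.castSucc (if p then oth i.castSucc i.succ else i.succ))
    (P i.succ (if q then oth i.succ i.castSucc else i.castSucc))

lemma val : chain 14 T 1 0 1 0 = ⟨-112158042825216, 1034684024537088⟩ := by
  decide +kernel

theorem result : ∃ (n : ℕ) (G : SimpleGraph (Fin n)) (x : Fin n → EuclideanSpace ℝ (Fin 3))
    (ψ : G.Dart → Fin 2 → ℂ) (Δ : Finset G.Dart),
    G.IsTree ∧ Admissible G x ∧ IsLift G x ψ ∧ IsOrientation G Δ ∧ (amp G ψ Δ).re < 0 := by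
  classical
  have hg : ∀ i j, (pathGraph 15).Adj i j → Good 3 (P i j) 1 (fun k => X j k - X i k) := by
    decide +kernel
  have hab : ∀ i : Fin 14, (pathGraph 15).Adj i.castSucc i.succ := by decide +kernel
  have hinj : ∀ i i' : Fin 14, i.castSucc = i'.castSucc → i.succ = i'.succ → i = i' := by
    decide +kernel
  refine ⟨15, pathGraph 15, fun i => pt (X i), fun d => sp 3 (P d.fst d.snd),
    univ.map (emb _ _ _ hab hinj), tree,
    fun i j h => (good_lift 3 (by norm_num) _ _ _ _ (hg i j h)).1,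
    fun d => (good_lift 3 (by norm_num) _ _ _ _ (hg _ _ d.adj)).2,
    emb_orient _ _ _ hab hinj (by decide +kernel), ?_⟩
  rw [amp_eq (pathGraph 15) oth (by decide +kernel) (by decide +kernel) (by decide +kernel)
    (fun v => v ≠ 0 ∧ v ≠ 14) (by decide +kernel) (by decide +kernel) 3 (by norm_num) P _ _
    hab hinj (by decide +kernel)]
  have key := sum_chain 14 T 1 0 1 0
  rw [val] at key
  rw [sum_filter]
  refine lt_of_eq_of_lt (congrArg (fun z : GaussianInt => ((z : ℂ) * _).re)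
    (Eq.trans ?_ key)) ?_
  · refine sum_congr (Finset.ext fun _ => ⟨fun _ => mem_univ _, fun _ => @mem_univ _ (_) _⟩)
      fun s _ => ?_
    have : (∀ v : Fin 15, ¬ (v ≠ 0 ∧ v ≠ 14) → s v = false) ↔ s 0 = false ∧ s 14 = false := by
      constructor
      · intro h; exact ⟨h 0 (by decide), h 14 (by decide)⟩
      · rintro ⟨h1, h2⟩ v hv
        by_cases h0 : v = 0
        · rw [h0, h1]
        · have : v = 14 := by by_contra h; exact hv ⟨h0, h⟩
          rw [this, h2]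
    rw [show Fin.last 14 = (14 : Fin 15) from rfl]
    by_cases hc : s 0 = false ∧ s 14 = false
    · rw [if_pos (this.2 hc), hc.1, hc.2]
      simp [T]
    · rw [if_neg (fun h => hc (this.1 h))]
      revert hc
      cases s 0 <;> cases s 14 <;> simp
  · rw [GaussianInt.toComplex_def']
    have : ((((3 : ℕ) : ℂ) ^ 2)⁻¹) ^ 14 = (((((3 : ℝ) ^ 2)⁻¹) ^ 14 : ℝ) : ℂ) := by push_cast; rfl
    rw [this, Complex.re_mul_ofReal]
    simp

end Pool.Agent.Results.MP_84cbe7_co.Helix
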